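import Pool.Agent.Lib.MP_cf29c0_an.IB.Plane

/-!
Decay estimates for the planar system at the initial time, and the two phases of the cycle that
keeps the second coordinate large with inputs that are moderate most of the time.
-/

open Filter Topology Set MeasureTheory
open scoped NNReal

namespace Pool.Agent.Lib.MP_cf29c0_an.IB

/-- `f t ≤ f₀ + c t` for small `t`, for every `c` above `a` -/
def Below (f : ℝ → ℝ) (f₀ a : ℝ) : Prop := ∀ c, a < c → ∀ᶠ t in 𝓝[>] (0 : ℝ), f t ≤ f₀ + c * t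

lemma Below.max {f g : ℝ → ℝ} {f₀ a : ℝ} (hf : Below f f₀ a) (hg : Below g f₀ a) :
    Below (fun t => max (f t) (g t)) f₀ a := fun c hc => by
  filter_upwards [hf c hc, hg c hc] with t h1 h2 using max_le h1 h2

lemma below_of_lt {f : ℝ → ℝ} (hf : Continuous f) {f₀ : ℝ} (h : f 0 < f₀) (a : ℝ) :
    Below f f₀ a := fun c _ => by
  have h1 : Continuous fun t => f₀ + c * t := by fun_prop
  have h2 : ∀ᶠ t in 𝓝 (0 : ℝ), f t < f₀ + c * t :=
    hf.continuousAt.eventually_lt h1.continuousAt (by simpa using h)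
  filter_upwards [mem_nhdsWithin_of_mem_nhds h2] with t ht using le_of_lt ht

variable {L C : ℝ} {w : ℝ → ℝ} {z₀ : ℝ × ℝ} {z : ℝ → ℝ × ℝ}

lemma IsSol.below (h : IsSol L C w z₀ z) (a b : ℝ) {g : ℝ → ℝ} (hg : Continuous g) {f₀ κ : ℝ}
    (hle : ∀ r, a * (F L (z r) (w r)).1 + b * (F L (z r) (w r)).2 ≤ g r)
    (h0 : a * z₀.1 + b * z₀.2 ≤ f₀) (hκ : a * z₀.1 + b * z₀.2 = f₀ → g 0 ≤ κ) :
    Below (fun t => a * (z t).1 + b * (z t).2) f₀ κ := by
  have hz := h.cont
  rcases h0.lt_or_eq with h1 | h1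
  · exact below_of_lt (by fun_prop) (by simpa [h.zero] using h1) κ
  · intro c hc
    have := slope_lt (f := fun t => a * (z t).1 + b * (z t).2) (s := 0) hg
      ((hκ h1).trans_lt hc) fun t ht => h.lin_le a b hg le_rfl ht fun r _ => hle r
    filter_upwards [this] with t ht
    rw [h.zero, h1, sub_zero] at ht
    exact ht.le

/-- the maximum norm on the half plane -/
def NN (z : ℝ × ℝ) : ℝ := max |z.1| z.2

lemma NN_eq (z : ℝ × ℝ) :
    NN z = max (max (1 * z.1 + 0 * z.2) (-1 * z.1 + 0 * z.2)) (0 * z.1 + 1 * z.2) := by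
  simp [NN, abs_eq_max_neg]

lemma IsSol.G_le (h : IsSol L C w z₀ z) (r : ℝ) : L * G (z r) (w r) ≤ L * G (z r) C :=
  mul_le_mul_of_nonneg_left (G_mono _ ((le_abs_self _).trans (h.bdd r))) h.L_nonneg

lemma IsSol.contG (h : IsSol L C w z₀ z) (c : ℝ) : Continuous fun r => G (z r) c :=
  continuous_G.comp (h.cont.prodMk continuous_const)

lemma IsSol.below_NN (h : IsSol L C w z₀ z) (hC : 2 * C ≤ NN z₀) :
    Below (fun t => NN (z t)) (NN z₀) (-(dd (NN z₀) / 2)) := by
  have hz := h.cont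
  have hG := h.contG C
  have hN0 : 0 ≤ NN z₀ := (abs_nonneg _).trans (le_max_left _ _)
  have hC0 : 0 ≤ C := (abs_nonneg _).trans (h.bdd 0)
  have hd := dd_le_self hN0
  have hd0 := dd_nonneg hN0
  have h1 : |z₀.1| ≤ NN z₀ := le_max_left _ _
  have h2 : z₀.2 ≤ NN z₀ := le_max_right _ _
  have a1 := h.below 1 0 (g := fun r => -(z r).1 + C) (by fun_prop) (f₀ := NN z₀)
    (κ := -(dd (NN z₀) / 2))
    (fun r => by
      have b1 := mul_nonneg h.L_nonneg (G_nonneg (z r) (w r))
      have b2 := (abs_le.1 (h.bdd r)).2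
      simp only [F]; linarith)
    (by linarith [le_abs_self z₀.1]) (fun e => by simp only [h.zero]; linarith)
  have a2 := h.below (-1) 0 (g := fun r => (z r).1 + C + L * G (z r) C) (by fun_prop)
    (f₀ := NN z₀) (κ := -(dd (NN z₀) / 2))
    (fun r => by
      have b1 := h.G_le r
      have b2 := (abs_le.1 (h.bdd r)).1
      simp only [F]; linarith)
    (by linarith [neg_abs_le z₀.1]) (fun e => by
      have : G z₀ C = 0 := G_of_fst (by linarith) C
      simp only [h.zero, this]; linarith)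
  have a3 := h.below 0 1 (g := fun r => -dd (z r).2 + L * G (z r) C) (by fun_prop)
    (f₀ := NN z₀) (κ := -(dd (NN z₀) / 2))
    (fun r => by
      have b1 := h.G_le r
      simp only [F]; linarith)
    (by linarith) (fun e => by
      have e' : z₀.2 = NN z₀ := by linarith
      have : G z₀ C = 0 := G_of_le (by linarith)
      simp only [h.zero, this, e']; linarith)
  simpa only [← NN_eq] using (a1.max a2).max a3

lemma IsSol.below_sum (h : IsSol L C w z₀ z) (h0 : 0 ≤ z₀.2) :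
    Below (fun t => |(z t).1| + (z t).2) (|z₀.1| + z₀.2) (-dd (NN z₀) + C) := by
  have hz := h.cont
  have hG := h.contG C
  have hd : dd (NN z₀) ≤ |z₀.1| + dd z₀.2 := by
    have b1 := dd_le_self (abs_nonneg z₀.1)
    have b2 := dd_nonneg h0
    have b3 := abs_nonneg z₀.1
    rcases le_total |z₀.1| z₀.2 with h1 | h1
    · rw [NN, max_eq_right h1]; linarith
    · rw [NN, max_eq_left h1]; linarith
  have a1 := h.below 1 1 (g := fun r => -(z r).1 + C - dd (z r).2) (by fun_prop)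
    (f₀ := |z₀.1| + z₀.2) (κ := -dd (NN z₀) + C)
    (fun r => by
      have b2 := (abs_le.1 (h.bdd r)).2
      simp only [F]; linarith)
    (by linarith [le_abs_self z₀.1]) (fun e => by simp only [h.zero]; linarith)
  have a2 := h.below (-1) 1 (g := fun r => (z r).1 + C - dd (z r).2 + 2 * (L * G (z r) C))
    (by fun_prop) (f₀ := |z₀.1| + z₀.2) (κ := -dd (NN z₀) + C)
    (fun r => by
      have b1 := h.G_le r
      have b2 := (abs_le.1 (h.bdd r)).1
      simp only [F]; linarith)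
    (by linarith [neg_abs_le z₀.1]) (fun e => by
      have : G z₀ C = 0 := G_of_fst (by linarith [abs_nonneg z₀.1]) C
      simp only [h.zero, this]; linarith)
  have e : ∀ y : ℝ × ℝ, max (1 * y.1 + 1 * y.2) (-1 * y.1 + 1 * y.2) = |y.1| + y.2 := fun y => by
    simp [abs_eq_max_neg, max_add_add_right]
  simpa only [e] using a1.max a2

lemma IsSol.snd_ge (h : IsSol L C w z₀ z) {t : ℝ} (ht : 0 ≤ t) : z₀.2 - t ≤ (z t).2 := by
  have := h.lin_le_const 0 (-1) 1 ht fun r _ => by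
    have b1 := mul_nonneg h.L_nonneg (G_nonneg (z r) (w r))
    have b2 := dd_le_one (z r).2
    simp only [F]; linarith
  linarith

lemma IsSol.fst_nonneg {c : ℝ} (h : IsSol L C (fun _ => c) z₀ z) (hc : 0 < c) (h0 : 0 ≤ z₀.1)
    {t : ℝ} (ht : 0 ≤ t) : 0 ≤ (z t).1 := by
  have hz := h.cont
  have hG := h.contG c
  have := h.fence (-1) 0 0 0 (g := fun r => (z r).1 - c + L * G (z r) c) (by fun_prop) (T := t)
    (fun r _ => by simp only [F]; linarith) (by linarith)
    (fun r _ e => by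
      have : G (z r) c = 0 := G_of_fst (by linarith) c
      simp only [this]; linarith) t ⟨ht, le_rfl⟩
  linarith

/-- the moderate input fills the reservoir in unit time -/
lemma IsSol.fill {R : ℝ} (h : IsSol L C (fun _ => 5) z₀ z) (hR : 5 ≤ R) (h0 : 0 ≤ z₀.1)
    (h8 : z₀.1 ≤ 8) (hρ : R + 1 ≤ z₀.2) :
    (∀ s ∈ Icc (0 : ℝ) 1, R ≤ (z s).2) ∧ 2 ≤ (z 1).1 ∧ (z 1).1 ≤ 7 := by
  have hz := h.cont
  have hG := h.contG 5
  have a1 : ∀ s ∈ Icc (0 : ℝ) 1, R ≤ (z s).2 := fun s hs => by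
    have := h.snd_ge hs.1
    linarith [hs.2]
  have a2 := h.fence (-1) 0 0 (-2) (g := fun r => (z r).1 - 5 + L * G (z r) 5) (by fun_prop)
    (T := 1) (fun r _ => by simp only [F]; linarith) (by linarith)
    (fun r hr e => by
      have : G (z r) 5 = 0 := G_of_le (hR.trans (a1 r ⟨hr.1, hr.2.le⟩))
      simp only [this]; linarith [hr.2]) 1 ⟨zero_le_one, le_rfl⟩
  have a3 := h.fence 1 0 8 (-1) (g := fun r => -(z r).1 + 5) (by fun_prop) (T := 1)
    (fun r _ => by
      have b1 := mul_nonneg h.L_nonneg (G_nonneg (z r) 5)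
      simp only [F]; linarith) (by linarith)
    (fun r hr e => by linarith [hr.2]) 1 ⟨zero_le_one, le_rfl⟩
  exact ⟨a1, by linarith, by linarith⟩

/-- a short burst of the input empties the reservoir into the second coordinate -/
lemma IsSol.burst {R ε : ℝ} (h : IsSol L C (fun _ => R + 4) z₀ z) (hR : 5 ≤ R) (hε : 0 < ε)
    (hεR : ε * (R + 4) ≤ 1) (hL : 8 ≤ ε * L) (h2 : 2 ≤ z₀.1) (h7 : z₀.1 ≤ 7) (hρ : R ≤ z₀.2) :
    ∃ τ ∈ Icc 0 ε, 0 ≤ (z τ).1 ∧ (z τ).1 ≤ 8 ∧ R + 1 ≤ (z τ).2 := by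
  have hε1 : ε ≤ 1 := by nlinarith
  have a1 : ∀ s, 0 ≤ s → 0 ≤ (z s).1 := fun s hs => h.fst_nonneg (by linarith) (by linarith) hs
  have a2 : ∀ s ∈ Icc 0 ε, (z s).1 ≤ 8 := fun s hs => by
    have := h.lin_le_const 1 0 (R + 4) hs.1 fun r hr => by
      have b1 := mul_nonneg h.L_nonneg (G_nonneg (z r) (R + 4))
      have b2 := a1 r hr.1
      simp only [F]; linarith
    have b3 : (R + 4) * s ≤ (R + 4) * ε := mul_le_mul_of_nonneg_left hs.2 (by linarith)
    linarith
  have a3 : ∀ s ∈ Icc 0 ε, R + 2 ≤ (z s).1 + (z s).2 := fun s hs => by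
    have := h.lin_le_const (-1) (-1) 0 hs.1 fun r hr => by
      have b1 := a2 r ⟨hr.1, hr.2.trans hs.2⟩
      have b2 := dd_le_one (z r).2
      simp only [F]; linarith
    linarith
  by_contra hcon
  push Not at hcon
  have a4 : ∀ s ∈ Icc 0 ε, (z s).2 < R + 1 := fun s hs => hcon s hs (a1 s hs.1) (a2 s hs)
  have a5 := h.lin_le_const 1 0 (R + 4 - L) hε.le fun r hr => by
    have b1 := a3 r hr
    have b2 := a4 r hr
    have b3 := h.snd_ge hr.1
    have b4 := a1 r hr.1
    have b5 := hr.2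
    have : G (z r) (R + 4) = 1 := by
      rw [G, clip_of_one_le (by linarith), clip_of_one_le (by linarith),
        clip_of_one_le (by linarith)]
      norm_num
    simp only [F, this]; linarith
  have b1 := a3 ε ⟨hε.le, le_rfl⟩
  have b2 := a4 ε ⟨hε.le, le_rfl⟩
  nlinarith

end Pool.Agent.Lib.MP_cf29c0_an.IB
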