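import Pool.Agent.Lib.MP_cf29c0_an.IB.Sys
import Pool.Agent.Lib.MP_cf29c0_an.IB.Decay

/-!
The two Lyapunov functions of the system, and the proof that no continuous nonnegative function
satisfies a dissipation inequality with unbounded decay rate.
-/

open Filter Topology Set MeasureTheory
open scoped NNReal ENNReal

namespace Pool.Agent.Lib.MP_cf29c0_an.IB

lemma kinf_mul (c : ℝ≥0) (hc : 0 < c) : IsKInf fun r => c * r := by
  refine ⟨⟨⟨by fun_prop, by simp, fun r hr => by positivity⟩, fun a b hab => ?_⟩, ?_⟩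
  · exact mul_lt_mul_of_pos_left hab hc
  · rintro ⟨M, hM⟩
    have h : c * ((M + 1) / c) ≤ M := hM ⟨(M + 1) / c, rfl⟩
    rw [mul_div_cancel₀ _ hc.ne'] at h
    exact absurd h (not_le.2 (lt_add_one M))

/-- the bounded decay rate of the two Lyapunov functions -/
noncomputable def al (r : ℝ≥0) : ℝ≥0 := r / (4 + 2 * r)

lemma isK_al : IsK al := by
  refine ⟨⟨?_, by simp [al], fun r hr => by unfold al; positivity⟩, fun a b hab => ?_⟩
  · exact continuous_id.div₀ (by fun_prop) fun r => by positivity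
  · have h : (a : ℝ) < b := hab
    have ha := a.coe_nonneg
    rw [← NNReal.coe_lt_coe]
    simp only [al, NNReal.coe_div, NNReal.coe_add, NNReal.coe_mul, NNReal.coe_ofNat]
    rw [div_lt_div_iff₀ (by positivity) (by positivity)]
    nlinarith

lemma al_le {r : ℝ≥0} {N : ℝ} (h : (r : ℝ) ≤ 2 * N) : (al r : ℝ) ≤ dd N / 2 := by
  have hr := r.coe_nonneg
  have h1 := dd_mono (r := r / 2) (s := N) (by positivity) (by linarith)
  have h2 : (al r : ℝ) = dd (r / 2) / 2 := by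
    simp only [al, NNReal.coe_div, NNReal.coe_add, NNReal.coe_mul, NNReal.coe_ofNat, dd]
    rw [abs_of_nonneg (by positivity)]
    field_simp
    ring
  linarith

section

variable {X U I : Type} [NormedAddCommGroup X] [NormedSpace ℝ X]
  [NormedAddCommGroup U] [NormedSpace ℝ U] [NormedAddCommGroup I] [NormedSpace ℝ I]

lemma dini_le (S : ControlSystem X U I) (V : X → ℝ≥0) (u : I) (x : X) {f : ℝ → ℝ} {a : ℝ}
    (hf : ∀ t : ℝ≥0, (V (S.φ t x u) : ℝ) = f t) (hb : Below f (V x) a) :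
    S.dini V u x ≤ (a : EReal) := by
  by_contra hlt
  obtain ⟨c, h1, h2⟩ := EReal.lt_iff_exists_real_btwn.1 (not_le.1 hlt)
  refine absurd h2 (not_lt.2 (limsup_le_of_le (by isBoundedDefault) ?_))
  have ht : Tendsto (fun t : ℝ≥0 => (t : ℝ)) (𝓝[>] 0) (𝓝[>] 0) := by
    refine tendsto_nhdsWithin_iff.2 ⟨?_, ?_⟩
    · exact (NNReal.continuous_coe.tendsto 0).mono_left nhdsWithin_le_nhds
    · filter_upwards [self_mem_nhdsWithin] with t ht using ht
  filter_upwards [ht.eventually (hb c (EReal.coe_lt_coe_iff.1 h1)), self_mem_nhdsWithin]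
    with t h3 h4
  have h5 : (0 : ℝ) < t := h4
  rw [EReal.coe_le_coe_iff, div_le_iff₀ h5, hf]
  linarith

/-- along a trajectory under a constant input, a bound on the Dini derivative integrates -/
lemma growth (S : ControlSystem X U I) (W : X → ℝ≥0) (hW : Continuous W) (u : I)
    (hu : ∀ t s, S.fn u s = S.fn u (t + s)) (c : ℝ) (x : X) (t : ℝ≥0)
    (hc : ∀ s, s ≤ t → S.dini W u (S.φ s x u) ≤ (c : EReal)) :
    (W (S.φ t x u) : ℝ) ≤ W x + c * t := by
  set g : ℝ → ℝ := fun s => (W (S.φ (Real.toNNReal s) x u) : ℝ) with hg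
  have hgc : Continuous g :=
    NNReal.continuous_coe.comp (hW.comp ((S.continuous_φ x u).comp continuous_real_toNNReal))
  have key := image_le_of_liminf_slope_right_le_deriv_boundary (f := g) (a := 0) (b := t)
    hgc.continuousOn (B := fun s => W x + c * s) (B' := fun _ => c)
    (by simp [hg, S.φ_zero]) (by fun_prop)
    (fun s _ => by
      simpa using (((hasDerivAt_id s).const_mul c).const_add (W x : ℝ)).hasDerivWithinAt)
    (fun s hs r hr => by
      have hlt : S.dini W u (S.φ (Real.toNNReal s) x u) < (r : EReal) :=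
        lt_of_le_of_lt (hc _ (Real.toNNReal_le_iff_le_coe.2 hs.2.le)) (EReal.coe_lt_coe_iff.2 hr)
      have hev := eventually_lt_of_limsup_lt hlt
      have htend : Tendsto (fun z : ℝ => Real.toNNReal (z - s)) (𝓝[>] s) (𝓝[>] 0) := by
        refine tendsto_nhdsWithin_iff.2 ⟨?_, ?_⟩
        · have : Continuous fun z : ℝ => Real.toNNReal (z - s) :=
            continuous_real_toNNReal.comp (continuous_id.sub continuous_const)
          have h2 := this.tendsto s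
          simp only [sub_self, Real.toNNReal_zero] at h2
          exact h2.mono_left nhdsWithin_le_nhds
        · filter_upwards [self_mem_nhdsWithin] with z hz
          exact Real.toNNReal_pos.2 (sub_pos.2 hz)
      refine Eventually.frequently ?_
      filter_upwards [htend.eventually hev, self_mem_nhdsWithin] with z hz hz0
      have hz1 : 0 ≤ z - s := (sub_pos.2 hz0).le
      rw [S.cocycle _ _ x u u (hu _), EReal.coe_lt_coe_iff, Real.coe_toNNReal _ hz1,
        ← Real.toNNReal_add hs.1 hz1] at hz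
      rw [slope_def_field]
      simpa [hg] using hz)
  have := key (x := t) ⟨t.coe_nonneg, le_rfl⟩
  simpa [hg] using this

end

/-- the constant input -/
def constI (c : ℝ≥0) : Inp :=
  mkI (fun _ => (c : ℝ)) c (fun _ => (abs_of_nonneg c.coe_nonneg).le) measurable_const

lemma norm_constI (c : ℝ≥0) : ‖constI c‖₊ ≤ c :=
  norm_le_of_fnI (constI c) fun _ => (abs_of_nonneg c.coe_nonneg).le

variable {X : Type} [NormedAddCommGroup X] [NormedSpace ℝ X]

namespace Dat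

variable (D : Dat X)

lemma norm_le_NN (x : X) : ‖x‖ ≤ 2 * NN (D.pr x) := by
  have h1 : |D.ell x| ≤ NN (D.pr x) := le_max_left _ _
  have h2 : ‖D.P x‖ ≤ NN (D.pr x) := le_max_right _ _
  linarith [D.norm_le x]

lemma lip_NN : LipschitzWith 2 fun x => max ‖D.ell x‖₊ ‖D.P x‖₊ := by
  refine LipschitzWith.of_dist_le_mul fun x y => ?_
  have h1 := D.ell_le (x - y)
  have h2 := D.norm_P_le (x - y)
  have e : D.P (x - y) = D.P x - D.P y := by
    simp only [P, map_sub, sub_smul]; abel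
  rw [map_sub] at h1
  rw [e] at h2
  have h3 := abs_norm_sub_norm_le (D.ell x) (D.ell y)
  have h4 := abs_norm_sub_norm_le (D.P x) (D.P y)
  have h5 := norm_nonneg (x - y)
  rw [Real.norm_eq_abs (D.ell x - D.ell y)] at h3
  rw [NNReal.dist_eq, dist_eq_norm]
  push_cast
  exact (abs_max_sub_max_le_max _ _ _ _).trans (max_le (by linarith) (by linarith))

theorem implication : ∃ V : X → ℝ≥0, LipschitzWith 2 V ∧ D.sys.IsImplicationLF V := by
  have e : ∀ x, ((max ‖D.ell x‖₊ ‖D.P x‖₊ : ℝ≥0) : ℝ) = NN (D.pr x) := fun x => by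
    simp [NN, pr]
  refine ⟨fun x => max ‖D.ell x‖₊ ‖D.P x‖₊, D.lip_NN, D.lip_NN.continuous,
    fun r => (1 / 2) * r, fun r => 2 * r,
    fun r => 4 * r, al, kinf_mul _ (by positivity), kinf_mul _ two_pos, kinf_mul _ four_pos,
    isK_al.1, fun x => ⟨?_, ?_⟩, fun x u h => ?_⟩
  · rw [← NNReal.coe_le_coe, e]
    have := D.norm_le_NN x
    push_cast
    linarith
  · rw [← NNReal.coe_le_coe, e]
    have := norm_nonneg x
    push_cast
    exact max_le ((D.ell_le x).trans (by linarith)) (D.norm_P_le x)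
  · have h' : 4 * ‖u‖ ≤ ‖x‖ := by exact_mod_cast h
    have h1 := D.norm_le_NN x
    have h2 := (D.isSol x u).below_NN (by linarith)
    rw [← e] at h2
    refine (dini_le D.sys _ u x (fun t => ?_) h2).trans (EReal.coe_le_coe_iff.2 ?_)
    · rw [e, ← (D.pr_phi t x u).1]; rfl
    · rw [e]
      exact neg_le_neg (al_le h1)

theorem integral : ∃ V : X → ℝ≥0, Continuous V ∧ ∃ ψ₁ ψ₂ α σ : ℝ≥0 → ℝ≥0,
    IsKInf ψ₁ ∧ IsKInf ψ₂ ∧ IsK α ∧ IsK σ ∧ (∀ x, ψ₁ ‖x‖₊ ≤ V x ∧ V x ≤ ψ₂ ‖x‖₊) ∧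
    ∀ (x : X) (u : Inp), D.sys.dini V u x ≤ ((-(α ‖x‖₊ : ℝ) + (σ ‖u‖₊ : ℝ) : ℝ) : EReal) := by
  have hP := D.continuous_P
  have hl := D.ell.continuous
  have e : ∀ x, ((‖D.ell x‖₊ + ‖D.P x‖₊ : ℝ≥0) : ℝ) = |(D.pr x).1| + (D.pr x).2 := fun x => by
    simp [pr]
  refine ⟨fun x => ‖D.ell x‖₊ + ‖D.P x‖₊, by fun_prop, fun r => 1 * r, fun r => 3 * r,
    al, fun r => 1 * r, kinf_mul _ one_pos, kinf_mul _ three_pos, isK_al,
    (kinf_mul _ one_pos).1, fun x => ⟨?_, ?_⟩, fun x u => ?_⟩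
  · rw [← NNReal.coe_le_coe]
    have := D.norm_le x
    simpa using this
  · rw [← NNReal.coe_le_coe]
    have h1 := D.ell_le x
    have h2 := D.norm_P_le x
    push_cast
    rw [Real.norm_eq_abs]
    linarith
  · have h1 := D.norm_le_NN x
    have h2 := (D.isSol x u).below_sum (norm_nonneg _)
    rw [← e] at h2
    refine (dini_le D.sys _ u x (fun t => ?_) h2).trans (EReal.coe_le_coe_iff.2 ?_)
    · rw [e, ← (D.pr_phi t x u).1]; rfl
    · have h3 := al_le (r := ‖x‖₊) h1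
      have h4 := (al ‖x‖₊).coe_nonneg
      push_cast
      linarith

theorem no_dissipation (W : X → ℝ≥0) (α σ : ℝ≥0 → ℝ≥0) (hW : Continuous W) (hα : IsKInf α)
    (hσ : IsK σ) : ¬ ∀ (x : X) (u : Inp),
      D.sys.dini W u x ≤ ((-(α ‖x‖₊ : ℝ) + (σ ‖u‖₊ : ℝ) : ℝ) : EReal) := by
  intro hd
  obtain ⟨r₀, hr₀⟩ : ∃ r₀, σ 5 + 1 ≤ α r₀ := by
    by_contra h
    push Not at h
    exact hα.2 ⟨σ 5 + 1, by rintro _ ⟨r, rfl⟩; exact (h r).le⟩
  set R : ℝ≥0 := 5 + 2 * r₀ with hR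
  have hR' : (R : ℝ) = 5 + 2 * r₀ := by rw [hR]; push_cast; rfl
  have hr0 := r₀.coe_nonneg
  have hR5 : (5 : ℝ) ≤ R := by linarith
  have hs0 := (σ (R + 4)).coe_nonneg
  set ε : ℝ := 1 / (R + 4 + 2 * σ (R + 4)) with hε
  have hε0 : 0 < ε := by positivity
  have hε1 : ε * (R + 4 + 2 * σ (R + 4)) = 1 := by rw [hε]; field_simp
  obtain ⟨θ, hθ0, hθ1, hθ⟩ := D.lam_unb (8 / ε)
  have hL : 8 ≤ ε * D.lam θ := by rwa [div_le_iff₀' hε0] at hθ
  have step : ∀ x, D.dir x = θ → 0 ≤ (D.pr x).1 → (D.pr x).1 ≤ 8 → R + 1 ≤ (D.pr x).2 →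
      ∃ y, D.dir y = θ ∧ 0 ≤ (D.pr y).1 ∧ (D.pr y).1 ≤ 8 ∧ R + 1 ≤ (D.pr y).2 ∧
        (W y : ℝ) ≤ W x - 1 / 2 := by
    intro x hx h0 h8 hρ
    have s1 : IsSol (D.lam (D.dir x)) ‖constI 5‖ (fun _ => 5) (D.pr x) (D.sol x (constI 5)) :=
      D.isSol x (constI 5)
    obtain ⟨a1, a2, a3⟩ := s1.fill hR5 h0 h8 hρ
    have g1 := growth D.sys W hW (constI 5) (fun _ _ => rfl) (-1) x 1 fun s hs => by
      refine (hd _ _).trans (EReal.coe_le_coe_iff.2 ?_)
      have b1 := a1 s ⟨s.coe_nonneg, hs⟩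
      rw [← (D.pr_phi s x (constI 5)).1] at b1
      have b2 := D.norm_P_le (D.phi s x (constI 5))
      have b3 : r₀ ≤ ‖D.sys.φ s x (constI 5)‖₊ := by
        rw [← NNReal.coe_le_coe]
        have : (D.pr (D.phi s x (constI 5))).2 = ‖D.P (D.phi s x (constI 5))‖ := rfl
        change (r₀ : ℝ) ≤ ‖D.phi s x (constI 5)‖
        linarith
      have b4 : ((σ 5 + 1 : ℝ≥0) : ℝ) ≤ α ‖D.sys.φ s x (constI 5)‖₊ :=
        hr₀.trans (hα.1.2.monotone b3)
      have b5 : (σ ‖constI 5‖₊ : ℝ) ≤ σ 5 := hσ.2.monotone (norm_constI 5)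
      push_cast at b4
      linarith
    have p1 := D.pr_phi 1 x (constI 5)
    set y := D.phi 1 x (constI 5) with hy
    have s2 : IsSol (D.lam (D.dir y)) ‖constI (R + 4)‖ (fun _ => (R : ℝ) + 4) (D.pr y)
        (D.sol y (constI (R + 4))) := D.isSol y (constI (R + 4))
    obtain ⟨τ, hτ, c1, c2, c3⟩ := s2.burst hR5 hε0 (by nlinarith) (by rwa [p1.2, hx])
      (by rw [p1.1]; exact a2) (by rw [p1.1]; exact a3)
      (by rw [p1.1]; exact a1 1 ⟨zero_le_one, le_rfl⟩)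
    have g2 := growth D.sys W hW (constI (R + 4)) (fun _ _ => rfl) (σ (R + 4)) y ⟨τ, hτ.1⟩
      fun s _ => by
        refine (hd _ _).trans (EReal.coe_le_coe_iff.2 ?_)
        have b5 : (σ ‖constI (R + 4)‖₊ : ℝ) ≤ σ (R + 4) := hσ.2.monotone (norm_constI _)
        have b6 := (α ‖D.sys.φ s y (constI (R + 4))‖₊).coe_nonneg
        linarith
    have p2 := D.pr_phi ⟨τ, hτ.1⟩ y (constI (R + 4))
    refine ⟨D.phi ⟨τ, hτ.1⟩ y (constI (R + 4)), by rw [p2.2, p1.2, hx], by rw [p2.1]; exact c1,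
      by rw [p2.1]; exact c2, by rw [p2.1]; exact c3, ?_⟩
    have g1' : (W y : ℝ) ≤ W x + -1 * 1 := g1
    have g2' : (W (D.phi ⟨τ, hτ.1⟩ y (constI (R + 4))) : ℝ) ≤ W y + σ (R + 4) * τ := g2
    have b7 : (σ (R + 4) : ℝ) * τ ≤ σ (R + 4) * ε := mul_le_mul_of_nonneg_left hτ.2 hs0
    nlinarith
  have start := D.pr_emb hθ0 hθ1 (z := (0, R + 1)) (by positivity)
  set x₀ := D.emb θ (0, (R : ℝ) + 1) with hx₀
  have iter : ∀ n : ℕ, ∃ y, D.dir y = θ ∧ 0 ≤ (D.pr y).1 ∧ (D.pr y).1 ≤ 8 ∧ R + 1 ≤ (D.pr y).2 ∧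
      (W y : ℝ) ≤ W x₀ - n / 2 := by
    intro n
    induction n with
    | zero =>
      exact ⟨x₀, start.2, by rw [start.1], by rw [start.1]; norm_num, by rw [start.1], by simp⟩
    | succ n ih =>
      obtain ⟨x, h1, h2, h3, h4, h5⟩ := ih
      obtain ⟨y, k1, k2, k3, k4, k5⟩ := step x h1 h2 h3 h4
      exact ⟨y, k1, k2, k3, k4, by push_cast; linarith⟩
  obtain ⟨n, hn⟩ := exists_nat_gt (2 * (W x₀ : ℝ))
  obtain ⟨y, -, -, -, -, hy⟩ := iter n
  have := (W y).coe_nonneg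
  linarith

end Dat

end Pool.Agent.Lib.MP_cf29c0_an.IB
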