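import Mathlib

/-!
Existence and uniqueness for an integral equation whose right side is globally Lipschitz in the
state and only measurable in time.
-/

open Filter Topology Set MeasureTheory
open scoped NNReal

namespace Pool.Agent.Lib.MP_cf29c0_an.IB

lemma integral_exp_le {a : ℝ} (ha : 0 < a) (t : ℝ) :
    ∫ s in (0 : ℝ)..t, Real.exp (a * s) ≤ Real.exp (a * t) / a := by
  have h : ∀ s ∈ uIcc (0 : ℝ) t, HasDerivAt (fun s => Real.exp (a * s) / a)
      (Real.exp (a * s)) s := by
    intro s _
    have := (((hasDerivAt_id s).const_mul a).exp).div_const a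
    simpa [mul_div_assoc, ha.ne'] using this
  rw [intervalIntegral.integral_eq_sub_of_hasDerivAt h
    (Continuous.intervalIntegrable (by fun_prop) _ _)]
  have : 0 < Real.exp (a * 0) / a := by positivity
  linarith

/-- the homogeneous Gronwall inequality in integral form -/
lemma gronwall_zero {δ : ℝ → ℝ} (hc : Continuous δ) {K T : ℝ} (hK : 0 ≤ K)
    (h : ∀ t ∈ Icc 0 T, δ t ≤ K * ∫ s in (0 : ℝ)..t, δ s) : ∀ t ∈ Icc 0 T, δ t ≤ 0 := by
  intro t ht
  set a : ℝ := 2 * K + 1 with ha
  have ha0 : 0 < a := by positivity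
  have hcont : ContinuousOn (fun s => δ s * Real.exp (-(a * s))) (Icc 0 T) := by fun_prop
  obtain ⟨t₀, ht₀, hmax⟩ := isCompact_Icc.exists_isMaxOn ⟨t, ht⟩ hcont
  set M := δ t₀ * Real.exp (-(a * t₀)) with hM
  have hee : ∀ s, Real.exp (-(a * s)) * Real.exp (a * s) = 1 := fun s => by
    rw [← Real.exp_add]; simp
  have hle : ∀ s ∈ Icc 0 T, δ s ≤ M * Real.exp (a * s) := by
    intro s hs
    have h1 : δ s * Real.exp (-(a * s)) ≤ M := hmax hs
    have h2 := mul_le_mul_of_nonneg_right h1 (Real.exp_pos (a * s)).le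
    rwa [mul_assoc, hee, mul_one] at h2
  have hM0 : M ≤ 0 := by
    by_contra hpos
    push Not at hpos
    have h1 : ∫ s in (0 : ℝ)..t₀, δ s ≤ ∫ s in (0 : ℝ)..t₀, M * Real.exp (a * s) :=
      intervalIntegral.integral_mono_on ht₀.1 (hc.intervalIntegrable _ _)
        (Continuous.intervalIntegrable (by fun_prop) _ _)
        fun s hs => hle s ⟨hs.1, hs.2.trans ht₀.2⟩
    rw [intervalIntegral.integral_const_mul] at h1
    have h2 := mul_le_mul_of_nonneg_left (integral_exp_le ha0 t₀) hpos.le
    have h3 : δ t₀ ≤ K * (M * (Real.exp (a * t₀) / a)) :=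
      (h t₀ ht₀).trans (mul_le_mul_of_nonneg_left (h1.trans h2) hK)
    have h4 := mul_le_mul_of_nonneg_right h3 (Real.exp_pos (-(a * t₀))).le
    have h5 : K * (M * (Real.exp (a * t₀) / a)) * Real.exp (-(a * t₀)) = M * (K / a) := by
      linear_combination (K * M / a) * hee t₀
    rw [← hM, h5] at h4
    have h6 : K / a < 1 := by rw [div_lt_one ha0]; linarith
    nlinarith
  have := hle t ht
  have := Real.exp_pos (a * t)
  nlinarith

variable {E : Type} [NormedAddCommGroup E] [NormedSpace ℝ E]

/-- standing assumptions on the right side -/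
structure Car (F : E → ℝ → E) (K C : ℝ) : Prop where
  K_nonneg : 0 ≤ K
  lip : ∀ s a b, ‖F a s - F b s‖ ≤ K * ‖a - b‖
  bdd : ∀ s, ‖F 0 s‖ ≤ C
  meas : ∀ z : ℝ → E, Continuous z → AEStronglyMeasurable (fun s => F (z s) s) volume

omit [NormedSpace ℝ E] in
lemma Car.norm_le {F : E → ℝ → E} {K C : ℝ} (h : Car F K C) (a : E) (s : ℝ) :
    ‖F a s‖ ≤ C + K * ‖a‖ := by
  have h1 := h.lip s a 0
  have h2 := h.bdd s
  have h3 := norm_add_le (F a s - F 0 s) (F 0 s)
  rw [sub_add_cancel] at h3
  rw [sub_zero] at h1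
  linarith

omit [NormedSpace ℝ E] in
lemma Car.integrable {F : E → ℝ → E} {K C : ℝ} (h : Car F K C) {z : ℝ → E} (hz : Continuous z)
    (a b : ℝ) : IntervalIntegrable (fun s => F (z s) s) volume a b := by
  refine IntervalIntegrable.mono_fun' (g := fun s => C + K * ‖z s‖)
    (Continuous.intervalIntegrable (by fun_prop) _ _) (h.meas z hz).restrict ?_
  exact Eventually.of_forall fun s => h.norm_le _ _

lemma Car.unique {F G : E → ℝ → E} {K C : ℝ} (h : Car F K C)
    {z w : ℝ → E} (hz : Continuous z) (hw : Continuous w) {T : ℝ} (z₀ : E)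
    (hFG : ∀ a, ∀ s ∈ Icc 0 T, F a s = G a s)
    (ez : ∀ t ∈ Icc 0 T, z t = z₀ + ∫ s in (0 : ℝ)..t, F (z s) s)
    (ew : ∀ t ∈ Icc 0 T, w t = z₀ + ∫ s in (0 : ℝ)..t, G (w s) s) :
    ∀ t ∈ Icc 0 T, z t = w t := by
  have key := gronwall_zero (δ := fun t => ‖z t - w t‖) (by fun_prop) (T := T) h.K_nonneg
    (fun t ht => by
      have e1 : ∫ s in (0 : ℝ)..t, G (w s) s = ∫ s in (0 : ℝ)..t, F (w s) s := by
        refine intervalIntegral.integral_congr fun s hs => ?_
        rw [uIcc_of_le ht.1] at hs
        exact (hFG _ s ⟨hs.1, hs.2.trans ht.2⟩).symm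
      have e2 : z t - w t = ∫ s in (0 : ℝ)..t, (F (z s) s - F (w s) s) := by
        rw [intervalIntegral.integral_sub (h.integrable hz _ _) (h.integrable hw _ _), ← e1]
        have a1 := ez t ht
        have a2 := ew t ht
        calc z t - w t = (z₀ + ∫ s in (0 : ℝ)..t, F (z s) s) -
              (z₀ + ∫ s in (0 : ℝ)..t, G (w s) s) := by rw [← a1, ← a2]
          _ = _ := by abel
      rw [e2, ← intervalIntegral.integral_const_mul]
      exact intervalIntegral.norm_integral_le_of_norm_le ht.1
        (Eventually.of_forall fun s _ => h.lip s _ _)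
        (Continuous.intervalIntegrable (by fun_prop) _ _))
  intro t ht
  have := key t ht
  exact sub_eq_zero.1 (norm_le_zero_iff.1 this)

lemma Car.exists_sol [CompleteSpace E] {F : E → ℝ → E} {K C : ℝ} (h : Car F K C) (z₀ : E) :
    ∃ z : ℝ → E, Continuous z ∧ ∀ t, 0 ≤ t → z t = z₀ + ∫ s in (0 : ℝ)..t, F (z s) s := by
  have hK := h.K_nonneg
  have hC : 0 ≤ C := (norm_nonneg _).trans (h.bdd 0)
  set a : ℝ := 2 * K + 1 with ha
  have ha0 : 0 < a := by positivity
  have hee : ∀ s, Real.exp (-(a * s)) * Real.exp (a * s) = 1 := fun s => by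
    rw [← Real.exp_add]; simp
  set lift : BoundedContinuousFunction ℝ E → ℝ → E :=
    fun g s => Real.exp (a * max s 0) • g s with hlift
  have lc : ∀ g, Continuous (lift g) := fun g => by
    have := g.continuous
    simp only [hlift]; fun_prop
  set Tf : BoundedContinuousFunction ℝ E → ℝ → E := fun g t =>
    Real.exp (-(a * max t 0)) • (z₀ + ∫ s in (0 : ℝ)..(max t 0), F (lift g s) s) with hTf
  have Tc : ∀ g, Continuous (Tf g) := fun g => by
    have h1 : Continuous fun t : ℝ => ∫ s in (0 : ℝ)..t, F (lift g s) s :=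
      intervalIntegral.continuous_primitive (h.integrable (lc g)) 0
    have h2 : Continuous fun t : ℝ => ∫ s in (0 : ℝ)..(max t 0), F (lift g s) s :=
      h1.comp (by fun_prop)
    simp only [hTf]; fun_prop
  have ibound : ∀ (φ : ℝ → E) (M t : ℝ), 0 ≤ M → 0 ≤ t →
      (∀ s, 0 ≤ s → ‖φ s‖ ≤ M * Real.exp (a * s)) →
      Real.exp (-(a * t)) * ‖∫ s in (0 : ℝ)..t, φ s‖ ≤ M / a := by
    intro φ M t hM ht hφ
    have h1 : ‖∫ s in (0 : ℝ)..t, φ s‖ ≤ ∫ s in (0 : ℝ)..t, M * Real.exp (a * s) :=
      intervalIntegral.norm_integral_le_of_norm_le ht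
        (Eventually.of_forall fun s hs => hφ s hs.1.le)
        (Continuous.intervalIntegrable (by fun_prop) _ _)
    rw [intervalIntegral.integral_const_mul] at h1
    have h2 := h1.trans (mul_le_mul_of_nonneg_left (integral_exp_le ha0 t) hM)
    have h3 := mul_le_mul_of_nonneg_left h2 (Real.exp_pos (-(a * t))).le
    refine h3.trans (le_of_eq ?_)
    have := hee t
    field_simp
    linear_combination M * this
  have lnorm : ∀ (g : BoundedContinuousFunction ℝ E) s, 0 ≤ s →
      ‖lift g s‖ ≤ ‖g‖ * Real.exp (a * s) := by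
    intro g s hs
    simp only [hlift, max_eq_left hs, norm_smul, Real.norm_eq_abs, abs_of_pos (Real.exp_pos _)]
    rw [mul_comm]
    exact mul_le_mul_of_nonneg_right (g.norm_coe_le_norm s) (Real.exp_pos _).le
  have Tb : ∀ g t, ‖Tf g t‖ ≤ ‖z₀‖ + (C + K * ‖g‖) / a := by
    intro g t
    have ht : 0 ≤ max t 0 := le_max_right _ _
    have h1 := ibound (fun s => F (lift g s) s) (C + K * ‖g‖) _ (by positivity) ht
      (fun s hs => by
        have a1 := h.norm_le (lift g s) s
        have a2 := mul_le_mul_of_nonneg_left (lnorm g s hs) hK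
        have a3 : 1 ≤ Real.exp (a * s) := Real.one_le_exp (by positivity)
        nlinarith)
    have h2 : Real.exp (-(a * max t 0)) ≤ 1 := by
      rw [Real.exp_le_one_iff]
      have : 0 ≤ a * max t 0 := by positivity
      linarith
    simp only [hTf, norm_smul, Real.norm_eq_abs, abs_of_pos (Real.exp_pos _)]
    have h3 := mul_le_mul_of_nonneg_left
      (norm_add_le z₀ (∫ s in (0 : ℝ)..(max t 0), F (lift g s) s))
      (Real.exp_pos (-(a * max t 0))).le
    have h4 := norm_nonneg z₀
    nlinarith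
  set T : BoundedContinuousFunction ℝ E → BoundedContinuousFunction ℝ E := fun g =>
    BoundedContinuousFunction.ofNormedAddCommGroup (Tf g) (Tc g) _ (Tb g) with hT
  have hcontr : ContractingWith (1 / 2) T := by
    refine ⟨by norm_num, LipschitzWith.of_dist_le_mul fun g g' => ?_⟩
    rw [dist_eq_norm, dist_eq_norm]
    refine (BoundedContinuousFunction.norm_le (by positivity)).2 fun t => ?_
    have ht : 0 ≤ max t 0 := le_max_right _ _
    have e : (T g - T g') t = Real.exp (-(a * max t 0)) •
        ∫ s in (0 : ℝ)..(max t 0), (F (lift g s) s - F (lift g' s) s) := by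
      rw [intervalIntegral.integral_sub (h.integrable (lc g) _ _) (h.integrable (lc g') _ _)]
      have : (T g - T g') t = Tf g t - Tf g' t := rfl
      rw [this]
      simp only [hTf]
      rw [← smul_sub]
      congr 1
      abel
    have h1 := ibound (fun s => F (lift g s) s - F (lift g' s) s) (K * ‖g - g'‖) _
      (by positivity) ht (fun s hs => by
        have a1 := h.lip s (lift g s) (lift g' s)
        have a2 : lift g s - lift g' s = lift (g - g') s := by
          simp only [hlift, BoundedContinuousFunction.coe_sub, Pi.sub_apply, smul_sub]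
        rw [a2] at a1
        have a3 := mul_le_mul_of_nonneg_left (lnorm (g - g') s hs) hK
        nlinarith)
    rw [e, norm_smul, Real.norm_eq_abs, abs_of_pos (Real.exp_pos _)]
    refine h1.trans ?_
    rw [div_le_iff₀ ha0]
    have := norm_nonneg (g - g')
    push_cast
    nlinarith
  set g := ContractingWith.fixedPoint T hcontr with hg
  have hfix : T g = g := hcontr.fixedPoint_isFixedPt
  refine ⟨lift g, lc g, fun t ht => ?_⟩
  have e1 : g t = Tf g t := by
    have : T g t = Tf g t := rfl
    rw [← this, hfix]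
  have e2 : lift g t = Real.exp (a * t) • g t := by simp only [hlift, max_eq_left ht]
  rw [e2, e1]
  simp only [hTf, max_eq_left ht]
  rw [smul_smul, mul_comm, hee, one_smul]

end Pool.Agent.Lib.MP_cf29c0_an.IB
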