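import Pool.Agent.Lib.MP_cf29c0_an.IB.Ode

/-!
The planar system with transfer rate `L`: the first coordinate is a linear reservoir, the second
coordinate decays at a bounded rate, and an input that exceeds the second coordinate moves mass
from the first coordinate to the second at rate `L`.
-/

open Filter Topology Set MeasureTheory
open scoped NNReal

namespace Pool.Agent.Lib.MP_cf29c0_an.IB

/-- projection of the line on the unit interval -/
def clip (r : ℝ) : ℝ := min (max r 0) 1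

/-- the bounded decay rate -/
noncomputable def dd (r : ℝ) : ℝ := r / (1 + |r|)

/-- the transfer term -/
def G (z : ℝ × ℝ) (v : ℝ) : ℝ := clip z.1 * clip (z.2 - 1) * clip (v - z.2)

/-- the planar vector field -/
noncomputable def F (L : ℝ) (z : ℝ × ℝ) (v : ℝ) : ℝ × ℝ :=
  (-z.1 + v - L * G z v, -dd z.2 + L * G z v)

lemma clip_nonneg (r : ℝ) : 0 ≤ clip r := le_min (le_max_right _ _) zero_le_one
lemma clip_le_one (r : ℝ) : clip r ≤ 1 := min_le_right _ _
lemma clip_of_nonpos {r : ℝ} (h : r ≤ 0) : clip r = 0 := by simp [clip, max_eq_right h]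
lemma clip_of_one_le {r : ℝ} (h : 1 ≤ r) : clip r = 1 := by
  simp [clip, h]
lemma clip_mono {r s : ℝ} (h : r ≤ s) : clip r ≤ clip s :=
  min_le_min (max_le_max h le_rfl) le_rfl
lemma clip_lip (r s : ℝ) : |clip r - clip s| ≤ |r - s| := by
  refine (abs_min_sub_min_le_max _ _ _ _).trans ?_
  rw [sub_self, abs_zero]
  exact max_le (abs_max_sub_max_le_abs _ _ _) (abs_nonneg _)
lemma clip_sub_one_le (r : ℝ) : clip (r - 1) ≤ |r| := by
  refine (min_le_left _ _).trans (max_le ?_ (abs_nonneg _))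
  linarith [le_abs_self r]

@[fun_prop] lemma continuous_clip : Continuous clip := by unfold clip; fun_prop

@[fun_prop] lemma continuous_dd : Continuous dd := by
  unfold dd
  exact continuous_id.div (by fun_prop) fun r => by positivity

lemma dd_le_one (r : ℝ) : dd r ≤ 1 := by
  unfold dd
  rw [div_le_one (by positivity)]
  linarith [le_abs_self r]

lemma abs_dd_le (r : ℝ) : |dd r| ≤ |r| := by
  unfold dd
  rw [abs_div, abs_of_pos (by positivity : (0 : ℝ) < 1 + |r|)]
  exact div_le_self (abs_nonneg _) (by linarith [abs_nonneg r])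

lemma dd_le_self {r : ℝ} (h : 0 ≤ r) : dd r ≤ r := by
  have := abs_dd_le r
  rw [abs_of_nonneg h] at this
  exact (le_abs_self _).trans this

lemma dd_nonneg {r : ℝ} (h : 0 ≤ r) : 0 ≤ dd r := by unfold dd; positivity

lemma dd_le_max (r : ℝ) : dd r ≤ max r 0 := by
  rcases le_total 0 r with h | h
  · exact (dd_le_self h).trans (le_max_left _ _)
  · exact (div_nonpos_of_nonpos_of_nonneg h (by positivity)).trans (le_max_right _ _)

lemma dd_mono {r s : ℝ} (hr : 0 ≤ r) (h : r ≤ s) : dd r ≤ dd s := by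
  unfold dd
  rw [abs_of_nonneg hr, abs_of_nonneg (hr.trans h),
    div_le_div_iff₀ (by linarith) (by linarith)]
  nlinarith

lemma dd_lip (r s : ℝ) : |dd r - dd s| ≤ |r - s| := by
  have hr : (0 : ℝ) < 1 + |r| := by positivity
  have hs : (0 : ℝ) < 1 + |s| := by positivity
  have e : dd r - dd s = (r * (1 + |s|) - s * (1 + |r|)) / ((1 + |r|) * (1 + |s|)) := by
    unfold dd; field_simp
  rw [e, abs_div, abs_of_pos (mul_pos hr hs), div_le_iff₀ (mul_pos hr hs)]
  rcases le_total 0 r with h1 | h1 <;> rcases le_total 0 s with h2 | h2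
  · rw [abs_of_nonneg h1, abs_of_nonneg h2]
    have : r * (1 + s) - s * (1 + r) = r - s := by ring
    rw [this]
    have := abs_nonneg (r - s)
    nlinarith [mul_nonneg h1 h2]
  · have h3 := mul_nonneg h1 (neg_nonneg.2 h2)
    rw [abs_of_nonneg h1, abs_of_nonpos h2, abs_of_nonneg (by linarith : 0 ≤ r - s),
      abs_of_nonneg (by nlinarith)]
    nlinarith [mul_nonneg h3 h1, mul_nonneg h3 (neg_nonneg.2 h2), sq_nonneg r, sq_nonneg s]
  · have h3 := mul_nonneg h2 (neg_nonneg.2 h1)
    rw [abs_of_nonpos h1, abs_of_nonneg h2, abs_of_nonpos (by linarith : r - s ≤ 0),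
      abs_of_nonpos (by nlinarith)]
    nlinarith [mul_nonneg h3 h2, mul_nonneg h3 (neg_nonneg.2 h1), sq_nonneg r, sq_nonneg s]
  · rw [abs_of_nonpos h1, abs_of_nonpos h2]
    have : r * (1 + -s) - s * (1 + -r) = r - s := by ring
    rw [this]
    have := abs_nonneg (r - s)
    nlinarith [mul_nonneg (neg_nonneg.2 h1) (neg_nonneg.2 h2)]

lemma G_nonneg (z : ℝ × ℝ) (v : ℝ) : 0 ≤ G z v :=
  mul_nonneg (mul_nonneg (clip_nonneg _) (clip_nonneg _)) (clip_nonneg _)

lemma G_mono (z : ℝ × ℝ) {v w : ℝ} (h : v ≤ w) : G z v ≤ G z w :=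
  mul_le_mul_of_nonneg_left (clip_mono (by linarith))
    (mul_nonneg (clip_nonneg _) (clip_nonneg _))

lemma G_of_fst {z : ℝ × ℝ} (h : z.1 ≤ 0) (v : ℝ) : G z v = 0 := by
  simp [G, clip_of_nonpos h]

lemma G_of_gate {z : ℝ × ℝ} (h : z.2 ≤ 1) (v : ℝ) : G z v = 0 := by
  simp [G, clip_of_nonpos (sub_nonpos.2 h)]

lemma G_of_le {z : ℝ × ℝ} {v : ℝ} (h : v ≤ z.2) : G z v = 0 := by
  simp [G, clip_of_nonpos (sub_nonpos.2 h)]

lemma G_le_abs (z : ℝ × ℝ) (v : ℝ) : G z v ≤ |z.2| := by
  have h1 := clip_sub_one_le z.2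
  have h2 := clip_nonneg (z.2 - 1)
  have h3 : clip z.1 * clip (z.2 - 1) ≤ clip (z.2 - 1) :=
    mul_le_of_le_one_left h2 (clip_le_one _)
  have h4 : G z v ≤ clip z.1 * clip (z.2 - 1) :=
    mul_le_of_le_one_right (mul_nonneg (clip_nonneg _) h2) (clip_le_one _)
  linarith

lemma abs_mul_sub_le {a b a' b' : ℝ} (hb : |b| ≤ 1) (ha' : |a'| ≤ 1) :
    |a * b - a' * b'| ≤ |a - a'| + |b - b'| := by
  have e : a * b - a' * b' = (a - a') * b + a' * (b - b') := by ring
  rw [e]
  refine (abs_add_le _ _).trans ?_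
  rw [abs_mul, abs_mul]
  have := abs_nonneg (a - a')
  have := abs_nonneg (b - b')
  nlinarith

lemma abs_clip_le (r : ℝ) : |clip r| ≤ 1 := by
  rw [abs_of_nonneg (clip_nonneg r)]; exact clip_le_one r

lemma G_lip (z z' : ℝ × ℝ) (v : ℝ) : |G z v - G z' v| ≤ 3 * ‖z - z'‖ := by
  have h1 : |z.1 - z'.1| ≤ ‖z - z'‖ := norm_fst_le (z - z')
  have h2 : |z.2 - z'.2| ≤ ‖z - z'‖ := norm_snd_le (z - z')
  have a0 : |clip z'.1 * clip (z'.2 - 1)| ≤ 1 := by
    rw [abs_mul]
    exact mul_le_one₀ (abs_clip_le _) (abs_nonneg _) (abs_clip_le _)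
  have a1 := abs_mul_sub_le (a := clip z.1 * clip (z.2 - 1)) (b' := clip (v - z'.2))
    (abs_clip_le (v - z.2)) a0
  have a2 := abs_mul_sub_le (a := clip z.1) (b' := clip (z'.2 - 1))
    (abs_clip_le (z.2 - 1)) (abs_clip_le z'.1)
  have b1 := clip_lip z.1 z'.1
  have b2 := clip_lip (z.2 - 1) (z'.2 - 1)
  have b3 := clip_lip (v - z.2) (v - z'.2)
  rw [sub_sub_sub_cancel_right] at b2
  rw [sub_sub_sub_cancel_left, abs_sub_comm z'.2] at b3
  unfold G
  linarith

lemma continuous_G : Continuous fun p : (ℝ × ℝ) × ℝ => G p.1 p.2 := by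
  unfold G; fun_prop

lemma continuous_F (L : ℝ) : Continuous fun p : (ℝ × ℝ) × ℝ => F L p.1 p.2 := by
  have := continuous_G
  unfold F; fun_prop

lemma car {L C : ℝ} (hL : 0 ≤ L) {w : ℝ → ℝ} (hw : Measurable w) (hC : ∀ s, |w s| ≤ C) :
    Car (fun z s => F L z (w s)) (1 + 3 * L) C where
  K_nonneg := by positivity
  lip s a b := by
    have h1 : |a.1 - b.1| ≤ ‖a - b‖ := norm_fst_le (a - b)
    have h2 : |a.2 - b.2| ≤ ‖a - b‖ := norm_snd_le (a - b)
    have h3 := mul_le_mul_of_nonneg_left (G_lip a b (w s)) hL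
    have h4 : |L * (G a (w s) - G b (w s))| = L * |G a (w s) - G b (w s)| := by
      rw [abs_mul, abs_of_nonneg hL]
    have h5 := dd_lip a.2 b.2
    rw [Prod.norm_def]
    refine max_le ?_ ?_
    · have e : (F L a (w s) - F L b (w s)).1 =
          -(a.1 - b.1) - L * (G a (w s) - G b (w s)) := by simp only [F, Prod.fst_sub]; ring
      rw [e, Real.norm_eq_abs]
      have := abs_sub (-(a.1 - b.1)) (L * (G a (w s) - G b (w s)))
      rw [abs_neg] at this
      linarith
    · have e : (F L a (w s) - F L b (w s)).2 =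
          -(dd a.2 - dd b.2) + L * (G a (w s) - G b (w s)) := by
        simp only [F, Prod.snd_sub]; ring
      rw [e, Real.norm_eq_abs]
      have := abs_add_le (-(dd a.2 - dd b.2)) (L * (G a (w s) - G b (w s)))
      rw [abs_neg] at this
      linarith
  bdd s := by
    have e : F L 0 (w s) = (w s, 0) := by
      simp [F, G_of_fst (z := 0) le_rfl, dd]
    rw [e, Prod.norm_def]
    exact max_le (hC s) (by simpa using (abs_nonneg _).trans (hC s))
  meas z hz :=
    ((continuous_F L).measurable.comp (hz.measurable.prodMk hw)).aestronglyMeasurable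

/-- `z` solves the planar system with rate `L`, input `w` bounded by `C`, from `z₀` -/
structure IsSol (L C : ℝ) (w : ℝ → ℝ) (z₀ : ℝ × ℝ) (z : ℝ → ℝ × ℝ) : Prop where
  L_nonneg : 0 ≤ L
  meas : Measurable w
  bdd : ∀ s, |w s| ≤ C
  cont : Continuous z
  eq : ∀ t, 0 ≤ t → z t = z₀ + ∫ s in (0 : ℝ)..t, F L (z s) (w s)

variable {L C : ℝ} {w : ℝ → ℝ} {z₀ : ℝ × ℝ} {z : ℝ → ℝ × ℝ}

lemma exists_isSol (hL : 0 ≤ L) (hw : Measurable w) (hC : ∀ s, |w s| ≤ C) (z₀ : ℝ × ℝ) :
    ∃ z, IsSol L C w z₀ z := by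
  obtain ⟨z, h1, h2⟩ := (car hL hw hC).exists_sol z₀
  exact ⟨z, hL, hw, hC, h1, h2⟩

lemma IsSol.zero (h : IsSol L C w z₀ z) : z 0 = z₀ := by simpa using h.eq 0 le_rfl

lemma IsSol.integrable (h : IsSol L C w z₀ z) (a b : ℝ) :
    IntervalIntegrable (fun s => F L (z s) (w s)) volume a b :=
  (car h.L_nonneg h.meas h.bdd).integrable h.cont a b

lemma IsSol.incr (h : IsSol L C w z₀ z) {s t : ℝ} (hs : 0 ≤ s) (ht : 0 ≤ t) :
    z t = z s + ∫ r in s..t, F L (z r) (w r) := by
  rw [h.eq t ht, ← intervalIntegral.integral_add_adjacent_intervals (h.integrable 0 s)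
    (h.integrable s t), ← add_assoc, ← h.eq s hs]

lemma IsSol.unique {C' : ℝ} {w' : ℝ → ℝ} {z' : ℝ → ℝ × ℝ} (h : IsSol L C w z₀ z)
    (h' : IsSol L C' w' z₀ z') {T : ℝ} (hT : 0 ≤ T) (hw : ∀ s ∈ Icc 0 T, w s = w' s) :
    z T = z' T :=
  (car h.L_nonneg h.meas h.bdd).unique (G := fun z s => F L z (w' s)) h.cont h'.cont z₀
    (fun a s hs => by simp only [hw s hs]) (fun t ht => h.eq t ht.1) (fun t ht => h'.eq t ht.1)
    T ⟨hT, le_rfl⟩

lemma IsSol.shift (h : IsSol L C w z₀ z) {t : ℝ} (ht : 0 ≤ t) :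
    IsSol L C (fun s => w (t + s)) (z t) fun s => z (t + s) where
  L_nonneg := h.L_nonneg
  meas := h.meas.comp (measurable_const_add t)
  bdd s := h.bdd _
  cont := h.cont.comp (by fun_prop)
  eq s hs := by
    rw [h.incr ht (add_nonneg ht hs),
      intervalIntegral.integral_comp_add_left (fun r => F L (z r) (w r)), add_zero]

/-- a linear functional of the state is controlled by a continuous majorant of its rate -/
lemma IsSol.lin_le (h : IsSol L C w z₀ z) (a b : ℝ) {g : ℝ → ℝ} (hg : Continuous g) {s t : ℝ}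
    (hs : 0 ≤ s) (hst : s ≤ t)
    (hle : ∀ r ∈ Icc s t, a * (F L (z r) (w r)).1 + b * (F L (z r) (w r)).2 ≤ g r) :
    a * (z t).1 + b * (z t).2 ≤ a * (z s).1 + b * (z s).2 + ∫ r in s..t, g r := by
  set ℓ : ℝ × ℝ →L[ℝ] ℝ :=
    a • ContinuousLinearMap.fst ℝ ℝ ℝ + b • ContinuousLinearMap.snd ℝ ℝ ℝ with hℓ
  have e : ∀ y : ℝ × ℝ, ℓ y = a * y.1 + b * y.2 := fun y => by simp [hℓ]
  have h1 := congrArg ℓ (h.incr hs (hs.trans hst))
  rw [map_add, ← ℓ.intervalIntegral_comp_comm (h.integrable s t), e, e] at h1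
  rw [h1]
  gcongr
  have hi := h.integrable s t
  refine intervalIntegral.integral_mono_on hst ⟨ℓ.integrable_comp hi.1, ℓ.integrable_comp hi.2⟩
    (hg.intervalIntegrable _ _) fun r hr => ?_
  rw [e]; exact hle r hr

lemma IsSol.lin_le_const (h : IsSol L C w z₀ z) (a b κ : ℝ) {t : ℝ} (ht : 0 ≤ t)
    (hle : ∀ r ∈ Icc 0 t, a * (F L (z r) (w r)).1 + b * (F L (z r) (w r)).2 ≤ κ) :
    a * (z t).1 + b * (z t).2 ≤ a * z₀.1 + b * z₀.2 + κ * t := by
  have := h.lin_le a b (g := fun _ => κ) continuous_const le_rfl ht hle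
  rw [h.zero] at this
  simpa [mul_comm] using this

lemma slope_lt {f g : ℝ → ℝ} (hg : Continuous g) {s c : ℝ} (hc : g s < c)
    (h : ∀ t, s ≤ t → f t ≤ f s + ∫ r in s..t, g r) :
    ∀ᶠ t in 𝓝[>] s, f t < f s + c * (t - s) := by
  have h1 := (hg.integral_hasStrictDerivAt s s).hasDerivAt
  have h2 := (hasDerivAt_iff_tendsto_slope.1 h1).mono_left (nhdsGT_le_nhdsNE s)
  filter_upwards [h2.eventually (gt_mem_nhds hc), self_mem_nhdsWithin] with t ht hst
  have hst' : 0 < t - s := sub_pos.2 hst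
  rw [slope_def_field, intervalIntegral.integral_same, sub_zero, div_lt_iff₀ hst'] at ht
  have := h t (le_of_lt hst)
  linarith

/-- a linear functional of the state stays below an affine barrier -/
lemma IsSol.fence (h : IsSol L C w z₀ z) (a b B κ : ℝ) {g : ℝ → ℝ} (hg : Continuous g) {T : ℝ}
    (hle : ∀ r, 0 ≤ r → a * (F L (z r) (w r)).1 + b * (F L (z r) (w r)).2 ≤ g r)
    (h0 : a * z₀.1 + b * z₀.2 ≤ B)
    (hcon : ∀ r ∈ Ico 0 T, a * (z r).1 + b * (z r).2 = B + κ * r → g r < κ) :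
    ∀ t ∈ Icc 0 T, a * (z t).1 + b * (z t).2 ≤ B + κ * t := by
  have hz := h.cont
  intro t ht
  refine image_le_of_liminf_slope_right_lt_deriv_boundary
    (f := fun t => a * (z t).1 + b * (z t).2) (f' := g) (a := 0) (b := T) (by fun_prop)
    (fun s hs c hc => ?_) (B := fun t => B + κ * t) (B' := fun _ => κ)
    (by simpa [h.zero] using h0) (fun s => ?_) hcon ht
  · refine Eventually.frequently ?_
    have := slope_lt (f := fun t => a * (z t).1 + b * (z t).2) hg hc fun t hst =>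
      h.lin_le a b hg hs.1 hst fun r hr => hle r (hs.1.trans hr.1)
    filter_upwards [this, self_mem_nhdsWithin] with t ht hst
    rw [slope_def_field, div_lt_iff₀ (sub_pos.2 hst)]
    linarith
  · simpa using ((hasDerivAt_id s).const_mul κ).const_add B

lemma IsSol.snd_zero (h : IsSol L C w z₀ z) (h0 : z₀.2 = 0) {t : ℝ} (ht : 0 ≤ t) :
    (z t).2 = 0 := by
  have hz := h.cont
  have hL := h.L_nonneg
  have key := gronwall_zero (δ := fun t => |(z t).2|) (by fun_prop) (K := 1 + L) (T := t)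
    (by positivity) (fun s hs => by
      have hg : Continuous fun r => (1 + L) * |(z r).2| := by fun_prop
      have a1 := h.lin_le 0 1 hg le_rfl hs.1 fun r _ => by
        have b1 := abs_dd_le (z r).2
        have b2 := neg_abs_le (dd (z r).2)
        have b3 := mul_le_mul_of_nonneg_left (G_le_abs (z r) (w r)) hL
        simp only [F]
        linarith
      have a2 := h.lin_le 0 (-1) hg le_rfl hs.1 fun r _ => by
        have b1 := abs_dd_le (z r).2
        have b2 := le_abs_self (dd (z r).2)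
        have b3 := mul_nonneg hL (G_nonneg (z r) (w r))
        have b4 := mul_nonneg hL (abs_nonneg (z r).2)
        simp only [F]
        linarith
      rw [h.zero, h0, intervalIntegral.integral_const_mul] at a1 a2
      exact abs_le.2 ⟨by linarith, by linarith⟩)
  exact abs_nonpos_iff.1 (key t ⟨ht, le_rfl⟩)

lemma IsSol.snd_pos (h : IsSol L C w z₀ z) (h0 : 0 < z₀.2) {t : ℝ} (ht : 0 ≤ t) :
    0 < (z t).2 := by
  have hz := h.cont
  have hL := h.L_nonneg
  by_contra hneg
  push Not at hneg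
  have key := gronwall_zero (δ := fun r => max (z (t - r)).2 0) (by fun_prop) (K := 1) (T := t)
    zero_le_one (fun r hr => by
      have hg : Continuous fun r => max (z r).2 0 := by fun_prop
      have a1 := h.lin_le 0 (-1) hg (s := t - r) (t := t) (by linarith [hr.2])
        (by linarith [hr.1]) fun s _ => by
          have b1 := dd_le_max (z s).2
          have b3 := mul_nonneg hL (G_nonneg (z s) (w s))
          simp only [F]
          linarith
      have a2 : ∫ s in (0 : ℝ)..r, max (z (t - s)).2 0 = ∫ s in (t - r)..t, max (z s).2 0 := by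
        rw [intervalIntegral.integral_comp_sub_left (fun s => max (z s).2 0) t, sub_zero]
      have a3 : 0 ≤ ∫ s in (0 : ℝ)..r, max (z (t - s)).2 0 :=
        intervalIntegral.integral_nonneg hr.1 fun s _ => le_max_right _ _
      rw [one_mul]
      refine max_le ?_ a3
      rw [a2]
      linarith)
  have := (le_max_left _ _).trans (key t ⟨ht, le_rfl⟩)
  rw [sub_self, h.zero] at this
  linarith

end Pool.Agent.Lib.MP_cf29c0_an.IB
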