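import Pool.Agent.Lib.MP_cf29c0_an.IB.Plane

/-!
In an infinite-dimensional normed space there is a locally Lipschitz rate function that is
unbounded on the unit sphere of a hyperplane. The vector field built from it is locally Lipschitz.
-/

open Filter Topology Set
open scoped NNReal

namespace Pool.Agent.Lib.MP_cf29c0_an.IB

section

variable {α : Type} [PseudoMetricSpace α]

lemma ll_mul {f g : α → ℝ} (hf : LocallyLipschitz f) (hg : LocallyLipschitz g) :
    LocallyLipschitz fun x => f x * g x :=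
  (contDiff_mul (𝕜 := ℝ) (𝔸 := ℝ) (n := 1)).locallyLipschitz.comp (hf.prodMk hg)

lemma ll_smul {Y : Type} [NormedAddCommGroup Y] [NormedSpace ℝ Y] {f : α → ℝ} {g : α → Y}
    (hf : LocallyLipschitz f) (hg : LocallyLipschitz g) : LocallyLipschitz fun x => f x • g x :=
  (contDiff_smul (𝕜 := ℝ) (𝕜' := ℝ) (F := Y) (n := 1)).locallyLipschitz.comp (hf.prodMk hg)

lemma ll_inv {f : α → ℝ} (hf : LocallyLipschitz f) (h0 : ∀ x, f x ≠ 0) :
    LocallyLipschitz fun x => (f x)⁻¹ := by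
  intro x
  obtain ⟨Kg, t, ht, hgL⟩ := hf x
  obtain ⟨Kf, u, hu, hfL⟩ :=
    (contDiffAt_inv ℝ (h0 x) (n := 1)).exists_lipschitzOnWith
  refine ⟨Kf * Kg, t ∩ f ⁻¹' u, inter_mem ht (hf.continuous.continuousAt hu), ?_⟩
  exact hfL.comp (hgL.mono inter_subset_left)
    ((mapsTo_preimage f u).mono_left inter_subset_right)

lemma ll_clip {f : α → ℝ} (hf : LocallyLipschitz f) : LocallyLipschitz fun x => clip (f x) :=
  (hf.max_const 0).min_const 1

end

lemma exists_sep (Y : Type) [NormedAddCommGroup Y] [NormedSpace ℝ Y]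
    (h : ¬ FiniteDimensional ℝ Y) :
    ∃ θ : ℕ → Y, (∀ n, ‖θ n‖ = 1) ∧ Pairwise fun m n => 1 / 2 ≤ ‖θ m - θ n‖ := by
  have : Std.Symm fun x y : Y => 1 / 2 ≤ ‖x - y‖ := ⟨fun x y hxy => by rwa [norm_sub_rev]⟩
  apply exists_seq_of_forall_finset_exists' (fun x : Y => ‖x‖ = 1)
    fun (x : Y) (y : Y) => 1 / 2 ≤ ‖x - y‖
  rintro s -
  let F := Submodule.span ℝ (s : Set Y)
  have hF : F.FG := ⟨s, rfl⟩
  have : FiniteDimensional ℝ F := .of_fg hF
  have Fclosed : IsClosed (F : Set Y) := Submodule.closed_of_finiteDimensional _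
  have : ∃ x, x ∉ F := by
    contrapose! h
    have : (⊤ : Submodule ℝ Y) = F := by
      ext x
      simp [h]
    rw [← this] at hF
    exact .of_fg_top hF
  obtain ⟨x, -, hx1, hx⟩ := riesz_lemma_of_lt_one Fclosed this (r := 1 / 2) (by norm_num)
  exact ⟨x, hx1, fun y hy => by rw [norm_sub_rev]; exact hx y (Submodule.subset_span hy)⟩

variable {X : Type} [NormedAddCommGroup X] [NormedSpace ℝ X]

omit [NormedSpace ℝ X] in
lemma exists_rate {θ : ℕ → X} (hθ : Pairwise fun m n => 1 / 2 ≤ ‖θ m - θ n‖) :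
    ∃ lam : X → ℝ, (∀ y, 0 ≤ lam y) ∧ LocallyLipschitz lam ∧ ∀ n : ℕ, (n : ℝ) + 1 ≤ lam (θ n) := by
  set S : Set (X × ℝ) := range fun n : ℕ => (θ n, 1 / ((n : ℝ) + 1)) with hS
  have hne : S.Nonempty := range_nonempty _
  have hpos : ∀ y : X, 0 < Metric.infDist (y, (0 : ℝ)) S := by
    intro y
    have hd : ∀ n : ℕ, dist (y, (0 : ℝ)) (θ n, 1 / ((n : ℝ) + 1)) =
        max ‖y - θ n‖ (1 / ((n : ℝ) + 1)) := fun n => by
      rw [Prod.dist_eq, dist_eq_norm, Real.dist_eq, zero_sub, abs_neg, abs_of_pos (by positivity)]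
    by_cases hy : ∃ m, ‖y - θ m‖ < 1 / 4
    · obtain ⟨m, hm⟩ := hy
      refine lt_of_lt_of_le (b := min (1 / 4) (1 / ((m : ℝ) + 1))) (by positivity) ?_
      rw [Metric.le_infDist hne]
      rintro _ ⟨n, rfl⟩
      rw [hd]
      by_cases hn : m = n
      · rw [hn]; exact (min_le_right _ _).trans (le_max_right _ _)
      · have h1 := hθ hn
        have h2 := norm_sub_le (y - θ n) (y - θ m)
        rw [sub_sub_sub_cancel_left] at h2
        exact (min_le_left _ _).trans (le_trans (by linarith) (le_max_left _ _))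
    · push Not at hy
      refine lt_of_lt_of_le (b := 1 / 4) (by positivity) ?_
      rw [Metric.le_infDist hne]
      rintro _ ⟨n, rfl⟩
      rw [hd]
      exact (hy n).trans (le_max_left _ _)
  refine ⟨fun y => (Metric.infDist (y, (0 : ℝ)) S)⁻¹, fun y => (inv_pos.2 (hpos y)).le,
    ll_inv ((Metric.lipschitz_infDist_pt S).locallyLipschitz.comp
      (LocallyLipschitz.prodMk_right (0 : ℝ))) fun y => (hpos y).ne', fun n => ?_⟩
  have h1 : Metric.infDist (θ n, (0 : ℝ)) S ≤ 1 / ((n : ℝ) + 1) := by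
    refine (Metric.infDist_le_dist_of_mem (mem_range_self n)).trans ?_
    rw [Prod.dist_eq, dist_self, Real.dist_eq, zero_sub, abs_neg, abs_of_pos (by positivity)]
    exact max_le (by positivity) le_rfl
  rw [le_inv_comm₀ (by positivity) (hpos _)]
  simpa using h1

/-- a unit vector, a functional that norms it, and the rate function -/
structure Dat (X : Type) [NormedAddCommGroup X] [NormedSpace ℝ X] where
  /-- the direction of the reservoir -/
  e : X
  /-- the coordinate of the reservoir -/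
  ell : X →L[ℝ] ℝ
  /-- the rate function -/
  lam : X → ℝ
  norm_e : ‖e‖ = 1
  ell_e : ell e = 1
  ell_le : ∀ x, |ell x| ≤ ‖x‖
  lam_nonneg : ∀ y, 0 ≤ lam y
  lam_lip : LocallyLipschitz lam
  lam_unb : ∀ M : ℝ, ∃ θ, ell θ = 0 ∧ ‖θ‖ = 1 ∧ M ≤ lam θ

lemma exists_dat (hX : ¬ FiniteDimensional ℝ X) : Nonempty (Dat X) := by
  obtain ⟨θ₀, h₀, -⟩ := exists_sep X hX
  obtain ⟨ell, hell, hee⟩ := exists_dual_vector ℝ (θ₀ 0) (by rw [h₀]; exact one_ne_zero)
  have he : ell (θ₀ 0) = 1 := by rw [hee, h₀]; rfl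
  have hY : ¬ FiniteDimensional ℝ (LinearMap.ker (ell : X →ₗ[ℝ] ℝ)) := by
    intro hY
    refine hX (Module.Finite.of_surjective
      ((LinearMap.toSpanSingleton ℝ X (θ₀ 0)).coprod (LinearMap.ker (ell : X →ₗ[ℝ] ℝ)).subtype)
      fun x => ⟨(ell x, ⟨x - ell x • θ₀ 0, by simp [he]⟩), by simp⟩)
  obtain ⟨θ, h1, h2⟩ := exists_sep _ hY
  obtain ⟨lam, l1, l2, l3⟩ := exists_rate (θ := fun n => (θ n : X)) fun m n hmn => h2 hmn
  refine ⟨⟨θ₀ 0, ell, lam, h₀ 0, he, fun x => ?_, l1, l2, fun M => ?_⟩⟩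
  · simpa [hell] using ell.le_opNorm x
  · obtain ⟨n, hn⟩ := exists_nat_ge M
    exact ⟨θ n, (θ n).2, h1 n, by linarith [l3 n]⟩

namespace Dat

variable (D : Dat X)

/-- the component in the hyperplane -/
def P (x : X) : X := x - D.ell x • D.e

/-- the planar coordinates -/
def pr (x : X) : ℝ × ℝ := (D.ell x, ‖D.P x‖)

/-- the direction of the component in the hyperplane -/
noncomputable def dir (x : X) : X := ‖D.P x‖⁻¹ • D.P x

/-- the plane spanned by the reservoir direction and `θ` -/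
noncomputable def emb (θ : X) : ℝ × ℝ →L[ℝ] X :=
  (ContinuousLinearMap.fst ℝ ℝ ℝ).smulRight D.e + (ContinuousLinearMap.snd ℝ ℝ ℝ).smulRight θ

/-- the vector field -/
noncomputable def field (p : X × ℝ) : X :=
  D.emb (D.dir p.1) (F (D.lam (D.dir p.1)) (D.pr p.1) p.2)

lemma emb_apply (θ : X) (z : ℝ × ℝ) : D.emb θ z = z.1 • D.e + z.2 • θ := by simp [emb]

lemma ell_P (x : X) : D.ell (D.P x) = 0 := by simp [P, D.ell_e]

lemma ell_dir (x : X) : D.ell (D.dir x) = 0 := by simp [dir, D.ell_P]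

lemma smul_dir (x : X) : ‖D.P x‖ • D.dir x = D.P x := by
  rcases eq_or_ne (D.P x) 0 with h | h
  · simp [h]
  · rw [dir, smul_smul, mul_inv_cancel₀ (norm_ne_zero_iff.2 h), one_smul]

lemma emb_pr (x : X) : D.emb (D.dir x) (D.pr x) = x := by
  rw [emb_apply]
  simp only [pr, smul_dir]
  simp [P]

lemma ell_emb {θ : X} (h : D.ell θ = 0) (z : ℝ × ℝ) : D.ell (D.emb θ z) = z.1 := by
  simp [emb_apply, h, D.ell_e]

lemma P_emb {θ : X} (h : D.ell θ = 0) (z : ℝ × ℝ) : D.P (D.emb θ z) = z.2 • θ := by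
  rw [P, D.ell_emb h, emb_apply]
  abel

lemma pr_emb {θ : X} (h : D.ell θ = 0) (h1 : ‖θ‖ = 1) {z : ℝ × ℝ} (hz : 0 < z.2) :
    D.pr (D.emb θ z) = z ∧ D.dir (D.emb θ z) = θ := by
  have e : ‖z.2 • θ‖ = z.2 := by rw [norm_smul, h1, mul_one, Real.norm_eq_abs, abs_of_pos hz]
  constructor
  · rw [pr, D.ell_emb h, D.P_emb h, e]
  · rw [dir, D.P_emb h, e, smul_smul, inv_mul_cancel₀ hz.ne', one_smul]

lemma norm_le (x : X) : ‖x‖ ≤ |D.ell x| + ‖D.P x‖ := by
  have h := norm_add_le (D.ell x • D.e) (D.P x)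
  rw [norm_smul, D.norm_e, mul_one, Real.norm_eq_abs] at h
  have e : D.ell x • D.e + D.P x = x := by simp [P]
  rwa [e] at h

lemma norm_P_le (x : X) : ‖D.P x‖ ≤ 2 * ‖x‖ := by
  have h := norm_sub_le x (D.ell x • D.e)
  rw [norm_smul, D.norm_e, mul_one, Real.norm_eq_abs] at h
  have := D.ell_le x
  rw [P]; linarith

lemma continuous_P : Continuous D.P := by
  have := D.ell.continuous
  unfold P; fun_prop

lemma field_zero : D.field (0, 0) = 0 := by
  have e : D.pr 0 = 0 := by simp [pr, P]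
  simp [field, e, F, G_of_fst (z := 0) le_rfl, dd, emb_apply]

lemma field_lip : LocallyLipschitz D.field := by
  have h1 : LocallyLipschitz fun p : X × ℝ => D.ell p.1 :=
    (D.ell.lipschitz.comp LipschitzWith.prod_fst).locallyLipschitz
  have h2 : LocallyLipschitz fun p : X × ℝ => D.P p.1 :=
    LipschitzWith.prod_fst.locallyLipschitz.sub (ll_smul h1 (.const _))
  have h3 : LocallyLipschitz fun p : X × ℝ => ‖D.P p.1‖ :=
    lipschitzWith_one_norm.locallyLipschitz.comp h2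
  have h4 : LocallyLipschitz fun p : X × ℝ => p.2 := LipschitzWith.prod_snd.locallyLipschitz
  have h5 : LocallyLipschitz fun p : X × ℝ => (max ‖D.P p.1‖ 1)⁻¹ • D.P p.1 :=
    ll_smul (ll_inv (h3.max_const 1) fun p => by positivity) h2
  have h6 : LocallyLipschitz fun p : X × ℝ => G (D.pr p.1) p.2 :=
    ll_mul (ll_mul (ll_clip h1) (ll_clip (h3.sub (.const 1)))) (ll_clip (h4.sub h3))
  have h7 : LocallyLipschitz fun p : X × ℝ =>
      D.lam ((max ‖D.P p.1‖ 1)⁻¹ • D.P p.1) * G (D.pr p.1) p.2 :=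
    ll_mul (D.lam_lip.comp h5) h6
  have h8 : LocallyLipschitz fun p : X × ℝ => (1 + ‖D.P p.1‖)⁻¹ • D.P p.1 :=
    ll_smul (ll_inv ((LocallyLipschitz.const 1).add h3) fun p => by positivity) h2
  have h9 := (ll_smul ((h4.sub h1).sub h7) (.const D.e)).add ((ll_smul h7 h5).sub h8)
  have e : D.field = fun p : X × ℝ =>
      (p.2 - D.ell p.1 - D.lam ((max ‖D.P p.1‖ 1)⁻¹ • D.P p.1) * G (D.pr p.1) p.2) • D.e +
        ((D.lam ((max ‖D.P p.1‖ 1)⁻¹ • D.P p.1) * G (D.pr p.1) p.2) •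
          ((max ‖D.P p.1‖ 1)⁻¹ • D.P p.1) - (1 + ‖D.P p.1‖)⁻¹ • D.P p.1) := by
    funext p
    have a1 : dd ‖D.P p.1‖ • D.dir p.1 = (1 + ‖D.P p.1‖)⁻¹ • D.P p.1 := by
      rw [dd, abs_norm, div_eq_inv_mul, mul_smul, smul_dir]
    rw [field, emb_apply, ← a1]
    rcases le_total ‖D.P p.1‖ 1 with h | h
    · have a2 : G (D.pr p.1) p.2 = 0 := G_of_gate h _
      simp only [F, a2, mul_zero, sub_zero, add_zero, zero_smul, zero_sub]
      simp only [pr, neg_smul, neg_add_eq_sub]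
    · rw [max_eq_left h]
      simp only [F, neg_add_eq_sub]
      rw [sub_smul (D.lam (D.dir p.1) * G (D.pr p.1) p.2)]
      rfl
  rw [e]
  exact h9

end Dat

end Pool.Agent.Lib.MP_cf29c0_an.IB
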