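import Pool.Agent.Lib.MP_cf29c0_an.Defs
import Pool.Agent.Lib.MP_cf29c0_an.IB.Rate

/-!
The control system on an infinite-dimensional space: scalar bounded measurable inputs, and the
flow of the planar system placed in the plane of the initial state.
-/

open Filter Topology Set MeasureTheory
open scoped NNReal ENNReal

namespace Pool.Agent.Lib.MP_cf29c0_an.IB

/-- bounded real functions of time -/
abbrev Bd : Type := lp (fun _ : ℝ≥0 => ℝ) ∞

/-- the input space: bounded measurable real functions of time -/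
def Inp : Submodule ℝ Bd where
  carrier := {u | Measurable fun s => u s}
  zero_mem' := by simp
  add_mem' := by
    intro u v hu hv
    have : Measurable fun s => u s + v s := Measurable.add hu hv
    simpa using this
  smul_mem' := by
    intro c u hu
    have : Measurable fun s => c * u s := Measurable.const_mul hu c
    simpa using this

/-- an input as a function of time -/
def fnI (u : Inp) (s : ℝ≥0) : ℝ := (u : Bd) s

lemma fnI_meas (u : Inp) : Measurable (fnI u) := u.2

lemma abs_fnI_le (u : Inp) (s : ℝ≥0) : |fnI u s| ≤ ‖u‖ :=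
  lp.norm_apply_le_norm ENNReal.top_ne_zero (u : Bd) s

lemma isLUB_fnI (u : Inp) : IsLUB (Set.range fun s => |fnI u s|) ‖u‖ := lp.isLUB_norm (u : Bd)

/-- build an input from a bounded measurable function -/
def mkI (f : ℝ≥0 → ℝ) (C : ℝ) (hC : ∀ s, |f s| ≤ C) (hf : Measurable f) : Inp :=
  ⟨⟨f, memℓp_infty ⟨C, by rintro _ ⟨s, rfl⟩; exact hC s⟩⟩, hf⟩

lemma norm_le_of_fnI (u : Inp) {C : ℝ} (h : ∀ s, |fnI u s| ≤ C) : ‖u‖ ≤ C :=
  (isLUB_fnI u).2 (by rintro _ ⟨s, rfl⟩; exact h s)

lemma concat_gen (u v : Inp) (t : ℝ≥0) (p : ℝ≥0 → Prop) [DecidablePred p]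
    (hp : MeasurableSet {s | p s}) :
    ∃ w : Inp, ∀ s, fnI w s = if p s then fnI u s else fnI v (s - t) := by
  have hm : Measurable fun s => if p s then fnI u s else fnI v (s - t) :=
    Measurable.ite hp (fnI_meas u)
      ((fnI_meas v).comp (continuous_id.sub continuous_const).measurable)
  refine ⟨mkI _ (max ‖u‖ ‖v‖) (fun s => ?_) hm, fun s => rfl⟩
  by_cases h : p s
  · rw [if_pos h]; exact (abs_fnI_le u s).trans (le_max_left _ _)
  · rw [if_neg h]; exact (abs_fnI_le v _).trans (le_max_right _ _)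

lemma mem_iff (g : ℝ≥0 → ℝ) :
    (∃ u : Inp, fnI u = g) ↔ Measurable g ∧ BddAbove (Set.range fun s => |g s|) := by
  constructor
  · rintro ⟨u, rfl⟩
    exact ⟨fnI_meas u, ‖u‖, (isLUB_fnI u).1⟩
  · rintro ⟨h, C, hC⟩
    exact ⟨mkI g C (fun s => hC ⟨s, rfl⟩) h, rfl⟩

/-- the input on the whole line -/
def ext (u : Inp) (s : ℝ) : ℝ := fnI u (Real.toNNReal s)

variable {X : Type} [NormedAddCommGroup X] [NormedSpace ℝ X]

namespace Dat

variable (D : Dat X)

lemma exists_sol (x : X) (u : Inp) :
    ∃ z, IsSol (D.lam (D.dir x)) ‖u‖ (ext u) (D.pr x) z :=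
  exists_isSol (D.lam_nonneg _) ((fnI_meas u).comp measurable_real_toNNReal)
    (fun _ => abs_fnI_le u _) _

/-- the planar solution -/
noncomputable def sol (x : X) (u : Inp) : ℝ → ℝ × ℝ := Classical.choose (D.exists_sol x u)

lemma isSol (x : X) (u : Inp) : IsSol (D.lam (D.dir x)) ‖u‖ (ext u) (D.pr x) (D.sol x u) :=
  Classical.choose_spec (D.exists_sol x u)

/-- the transition map -/
noncomputable def phi (t : ℝ≥0) (x : X) (u : Inp) : X := D.emb (D.dir x) (D.sol x u t)

lemma pr_phi (t : ℝ≥0) (x : X) (u : Inp) :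
    D.pr (D.phi t x u) = D.sol x u t ∧ D.dir (D.phi t x u) = D.dir x := by
  rcases eq_or_ne (D.P x) 0 with h | h
  · have h1 : (D.sol x u t).2 = 0 := (D.isSol x u).snd_zero (by simp [pr, h]) t.2
    have h2 : D.P (D.phi t x u) = 0 := by rw [phi, D.P_emb (D.ell_dir x), h1, zero_smul]
    constructor
    · rw [pr, h2, norm_zero, phi, D.ell_emb (D.ell_dir x), ← h1]
    · rw [dir, dir, h2, h]
  · refine D.pr_emb (D.ell_dir x) ?_ ((D.isSol x u).snd_pos (norm_pos_iff.2 h) t.2)
    rw [dir, norm_smul, norm_inv, norm_norm, inv_mul_cancel₀ (norm_ne_zero_iff.2 h)]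

/-- the control system -/
noncomputable def sys : ControlSystem X ℝ Inp where
  fn := fnI
  fn_add u v s := by simp [fnI]
  fn_smul c u s := by simp [fnI]
  fn_injective u v h := Subtype.ext (Subtype.ext h)
  shift_mem u τ := by
    refine ⟨mkI _ ‖u‖ (fun s => abs_fnI_le u (s + τ))
      ((fnI_meas u).comp (measurable_id.add_const τ)), fun s => rfl, ?_⟩
    exact norm_le_of_fnI _ fun s => abs_fnI_le u _
  concat_mem u v t _ := concat_gen u v t (fun s => s ≤ t) measurableSet_Iic
  concat_mem' u v t _ := concat_gen u v t (fun s => s < t) measurableSet_Iio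
  φ := D.phi
  φ_zero x u := by
    rw [phi, NNReal.coe_zero, (D.isSol x u).zero, emb_pr]
  causal t x u v h := by
    rw [phi, phi, (D.isSol x u).unique (D.isSol x v) t.coe_nonneg fun s hs =>
      h _ (Real.toNNReal_le_iff_le_coe.2 hs.2)]
  continuous_φ x u :=
    (D.emb (D.dir x)).continuous.comp ((D.isSol x u).cont.comp NNReal.continuous_coe)
  cocycle t h x u v hv := by
    have h1 := D.isSol (D.phi t x u) v
    rw [(D.pr_phi t x u).1, (D.pr_phi t x u).2] at h1
    have h2 := h1.unique ((D.isSol x u).shift t.2) h.2 fun s hs => by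
      have e : Real.toNNReal ((t : ℝ) + s) = t + Real.toNNReal s := by
        rw [Real.toNNReal_add t.coe_nonneg hs.1]; simp
      simp only [ext, hv]
      exact congrArg _ e.symm
    rw [phi, (D.pr_phi t x u).2]
    exact congrArg _ h2

lemma sys_ode [CompleteSpace X] (t : ℝ≥0) (x : X) (u : Inp) :
    IntervalIntegrable
      (fun s : ℝ => D.field (D.sys.φ s.toNNReal x u, D.sys.fn u s.toNNReal)) volume 0 t ∧
    D.sys.φ t x u =
      x + ∫ s in (0 : ℝ)..t, D.field (D.sys.φ s.toNNReal x u, D.sys.fn u s.toNNReal) := by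
  have h := D.isSol x u
  have e : ∀ s, 0 ≤ s → D.emb (D.dir x) (F (D.lam (D.dir x)) (D.sol x u s) (ext u s)) =
      D.field (D.sys.φ s.toNNReal x u, D.sys.fn u s.toNNReal) := by
    intro s hs
    have h1 := D.pr_phi s.toNNReal x u
    rw [Real.coe_toNNReal s hs] at h1
    change _ = D.emb (D.dir (D.phi s.toNNReal x u))
      (F (D.lam (D.dir (D.phi s.toNNReal x u))) (D.pr (D.phi s.toNNReal x u)) (ext u s))
    rw [h1.1, h1.2]
  have hi := h.integrable 0 t
  constructor
  · refine IntervalIntegrable.congr (fun s hs => e s ?_)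
      ⟨(D.emb (D.dir x)).integrable_comp hi.1, (D.emb (D.dir x)).integrable_comp hi.2⟩
    rw [uIoc_of_le t.coe_nonneg] at hs
    exact hs.1.le
  · change D.emb (D.dir x) (D.sol x u t) = _
    rw [h.eq t t.2, map_add, emb_pr, ← (D.emb (D.dir x)).intervalIntegral_comp_comm hi]
    congr 1
    refine intervalIntegral.integral_congr fun s hs => e s ?_
    rw [uIcc_of_le t.coe_nonneg] at hs
    exact hs.1

end Dat

end Pool.Agent.Lib.MP_cf29c0_an.IB
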